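import Mathlib

set_option autoImplicit false

namespace Pool.Agent.Results.MP_d2d48a_co.NoThin

open Finset

/-- Coordinates: `m` first-level groups of size `D`, and one further group of size `D` for every
transversal `X` of the first-level groups. -/
abbrev Co (m D : ℕ) : Type := (Fin m × Fin D) ⊕ ((Fin m → Fin D) × Fin D)

/-- The encoding map. -/
def enc (m D : ℕ) : ((Fin m → ZMod 2) × ((Fin m → Fin D) → ZMod 2)) →ₗ[ZMod 2] (Co m D → ZMod 2) where
  toFun p := fun t => match t with
    | Sum.inl (i, j) => p.1 i + ∑ X : Fin m → Fin D, if X i = j then p.2 X else 0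
    | Sum.inr (X, _) => p.2 X
  map_add' p q := by
    funext t
    rcases t with ⟨i, j⟩ | ⟨X, j⟩
    · simp only [Prod.fst_add, Prod.snd_add, Pi.add_apply]
      have : ∀ X : Fin m → Fin D, (if X i = j then p.2 X + q.2 X else 0) =
          (if X i = j then p.2 X else 0) + (if X i = j then q.2 X else 0) := by
        intro X; split_ifs <;> simp
      simp only [this, Finset.sum_add_distrib]
      ring
    · simp
  map_smul' r p := by
    funext t
    rcases t with ⟨i, j⟩ | ⟨X, j⟩
    · simp only [Prod.smul_fst, Prod.smul_snd, Pi.smul_apply, smul_eq_mul, RingHom.id_apply]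
      have : ∀ X : Fin m → Fin D, (if X i = j then r * p.2 X else 0) =
          r * (if X i = j then p.2 X else 0) := by
        intro X; split_ifs <;> simp
      simp only [this, ← Finset.mul_sum]
      ring
    · simp

lemma enc_inl (m D : ℕ) (p : (Fin m → ZMod 2) × ((Fin m → Fin D) → ZMod 2)) (i : Fin m)
    (j : Fin D) :
    enc m D p (Sum.inl (i, j)) = p.1 i + ∑ X : Fin m → Fin D, if X i = j then p.2 X else 0 := rfl

lemma enc_inr (m D : ℕ) (p : (Fin m → ZMod 2) × ((Fin m → Fin D) → ZMod 2)) (X : Fin m → Fin D)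
    (j : Fin D) : enc m D p (Sum.inr (X, j)) = p.2 X := rfl

/-- The position of a coordinate inside its group. -/
def pos {m D : ℕ} : Co m D → Fin D
  | Sum.inl (_, j) => j
  | Sum.inr (_, j) => j

lemma hit (m D : ℕ) (p : (Fin m → ZMod 2) × ((Fin m → Fin D) → ZMod 2)) (hp : enc m D p ≠ 0)
    (j : Fin D) : ∃ t : Co m D, pos t = j ∧ enc m D p t ≠ 0 := by
  by_cases h2 : ∃ X, p.2 X ≠ 0
  · obtain ⟨X, hX⟩ := h2
    exact ⟨Sum.inr (X, j), rfl, by rw [enc_inr]; exact hX⟩
  · push Not at h2
    have h1 : ∃ i, p.1 i ≠ 0 := by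
      by_contra h1
      push Not at h1
      apply hp
      have : p = 0 := Prod.ext (funext h1) (funext h2)
      rw [this, map_zero]
    obtain ⟨i, hi⟩ := h1
    refine ⟨Sum.inl (i, j), rfl, ?_⟩
    rw [enc_inl]
    simpa [h2] using hi

lemma word1 (m D : ℕ) (i : Fin m) (t : Co m D) :
    enc m D (Pi.single i 1, 0) t ≠ 0 ↔ ∃ j, t = Sum.inl (i, j) := by
  rcases t with ⟨i', j⟩ | ⟨X, j⟩
  · rw [enc_inl]
    by_cases h : i' = i
    · subst h; simp
    · simp [h]
  · rw [enc_inr]; simp

lemma word2 (m D : ℕ) (X : Fin m → Fin D) (t : Co m D) :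
    enc m D (0, Pi.single X 1) t ≠ 0 ↔
      (∃ i, t = Sum.inl (i, X i)) ∨ ∃ j, t = Sum.inr (X, j) := by
  rcases t with ⟨i, j⟩ | ⟨Y, j⟩
  · rw [enc_inl]
    have : (∑ Y : Fin m → Fin D, if Y i = j then
        (Pi.single X (1 : ZMod 2) : (Fin m → Fin D) → ZMod 2) Y else 0) =
        if X i = j then 1 else 0 := by
      rw [Finset.sum_eq_single X]
      · simp
      · intro Y _ hY
        simp [hY]
      · simp
    simp only [Pi.zero_apply, zero_add, this]
    by_cases h : X i = j
    · simp only [h, if_true]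
      refine ⟨fun _ => Or.inl ⟨i, by rw [h]⟩, fun _ => one_ne_zero⟩
    · simp only [h, if_false, ne_eq, not_true_eq_false, false_iff]
      rintro (⟨i', h'⟩ | ⟨j', h'⟩)
      · simp only [Sum.inl.injEq, Prod.mk.injEq] at h'
        obtain ⟨h1, h2⟩ := h'
        subst h1
        exact h h2.symm
      · simp at h'
  · rw [enc_inr]
    by_cases h : Y = X
    · subst h; simp
    · simp [h]

/-- For every `α > 0` and every `d` there is a binary linear code with `d` pairwise disjoint
hitting sets and no set `S` with `α wt(c) ≤ wt(c_S) < wt(c)` for all nonzero codewords. -/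
theorem strong (α : ℝ) (hα : 0 < α) (d : ℕ) :
    ∃ n : ℕ, 1 ≤ n ∧ ∃ C : Submodule (ZMod 2) (Fin n → ZMod 2),
      (∃ H : Fin d → Finset (Fin n), (∀ j k, j ≠ k → Disjoint (H j) (H k)) ∧
        ∀ j, ∀ c ∈ C, c ≠ 0 → ∃ i ∈ H j, c i ≠ 0) ∧
      ¬ ∃ S : Finset (Fin n), ∀ c ∈ C, c ≠ 0 →
        α * ((univ.filter fun i => c i ≠ 0).card : ℝ) ≤ ((S.filter fun i => c i ≠ 0).card : ℝ) ∧
        (S.filter fun i => c i ≠ 0).card < (univ.filter fun i => c i ≠ 0).card := by
  classical
  obtain ⟨m, hm⟩ := exists_nat_gt (((d + 1 : ℕ) : ℝ) / α)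
  have hm' : ((d + 1 : ℕ) : ℝ) < α * m := by
    rw [div_lt_iff₀ hα] at hm; linarith
  let e : Co m (d + 1) ≃ Fin (Fintype.card (Co m (d + 1))) := Fintype.equivFin _
  let L : ((Fin m → ZMod 2) × ((Fin m → Fin (d + 1)) → ZMod 2)) →ₗ[ZMod 2]
      (Fin (Fintype.card (Co m (d + 1))) → ZMod 2) :=
    (LinearMap.funLeft (ZMod 2) (ZMod 2) e.symm).comp (enc m (d + 1))
  have hL : ∀ p t, L p t = enc m (d + 1) p (e.symm t) := fun p t => rfl
  refine ⟨Fintype.card (Co m (d + 1)), ?_, LinearMap.range L, ⟨fun j =>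
    univ.filter fun t => pos (e.symm t) = j.castSucc, ?_, ?_⟩, ?_⟩
  · have : Nonempty (Co m (d + 1)) := ⟨Sum.inr (fun _ => 0, 0)⟩
    exact Fintype.card_pos
  · intro j k hjk
    rw [Finset.disjoint_left]
    intro t ht ht'
    simp only [mem_filter, mem_univ, true_and] at ht ht'
    exact hjk (Fin.castSucc_injective _ (ht.symm.trans ht'))
  · rintro j c ⟨p, rfl⟩ hc
    have hp : enc m (d + 1) p ≠ 0 := by
      intro h
      apply hc
      funext t
      rw [hL, h]; rfl
    obtain ⟨t, ht, ht'⟩ := hit m (d + 1) p hp j.castSucc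
    refine ⟨e t, ?_, ?_⟩
    · simp [ht]
    · rw [hL]; simpa using ht'
  · rintro ⟨S, hS⟩
    have h1 : ∀ i : Fin m, ∃ j : Fin (d + 1), e (Sum.inl (i, j)) ∉ S := by
      intro i
      by_contra hcon
      push Not at hcon
      have hne : L (Pi.single i 1, 0) ≠ 0 := by
        intro h
        have h0 := congrFun h (e (Sum.inl (i, 0)))
        rw [hL, Equiv.symm_apply_apply] at h0
        exact (word1 m (d + 1) i _).2 ⟨0, rfl⟩ h0
      have h := (hS _ ⟨_, rfl⟩ hne).2
      refine absurd h (not_lt.2 (Finset.card_le_card ?_))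
      intro t ht
      simp only [mem_filter, mem_univ, true_and] at ht ⊢
      refine ⟨?_, ht⟩
      rw [hL] at ht
      obtain ⟨j, hj⟩ := (word1 m (d + 1) i _).1 ht
      have : t = e (Sum.inl (i, j)) := by rw [← hj]; simp
      rw [this]; exact hcon j
    choose X hX using h1
    have hne : L (0, Pi.single X 1) ≠ 0 := by
      intro h
      have h0 := congrFun h (e (Sum.inr (X, 0)))
      rw [hL, Equiv.symm_apply_apply] at h0
      exact (word2 m (d + 1) X _).2 (Or.inr ⟨0, rfl⟩) h0
    have h := (hS _ ⟨_, rfl⟩ hne).1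
    have hup : (S.filter fun t => L (0, Pi.single X 1) t ≠ 0).card ≤ d + 1 := by
      have : (S.filter fun t => L (0, Pi.single X 1) t ≠ 0) ⊆
          univ.image fun j : Fin (d + 1) => e (Sum.inr (X, j)) := by
        intro t ht
        simp only [mem_filter] at ht
        obtain ⟨htS, ht⟩ := ht
        rw [hL] at ht
        rcases (word2 m (d + 1) X _).1 ht with ⟨i, hi⟩ | ⟨j, hj⟩
        · have : t = e (Sum.inl (i, X i)) := by rw [← hi]; simp
          rw [this] at htS
          exact absurd htS (hX i)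
        · have : t = e (Sum.inr (X, j)) := by rw [← hj]; simp
          rw [this]
          exact Finset.mem_image_of_mem _ (mem_univ j)
      refine (Finset.card_le_card this).trans (Finset.card_image_le.trans ?_)
      simp
    have hlow : m ≤ (univ.filter fun t => L (0, Pi.single X 1) t ≠ 0).card := by
      have hinj : Function.Injective fun i : Fin m => e (Sum.inl (i, X i)) := by
        intro a b hab
        have := e.injective hab
        simp only [Sum.inl.injEq, Prod.mk.injEq] at this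
        exact this.1
      have : (univ.image fun i : Fin m => e (Sum.inl (i, X i))) ⊆
          univ.filter fun t => L (0, Pi.single X 1) t ≠ 0 := by
        intro t ht
        simp only [mem_image, mem_univ, true_and] at ht
        obtain ⟨i, rfl⟩ := ht
        simp only [mem_filter, mem_univ, true_and]
        rw [hL, Equiv.symm_apply_apply]
        exact (word2 m (d + 1) X _).2 (Or.inl ⟨i, rfl⟩)
      have h2 := Finset.card_le_card this
      rwa [Finset.card_image_of_injective _ hinj, Finset.card_univ, Fintype.card_fin] at h2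
    have hlow' : (m : ℝ) ≤ ((univ.filter fun t => L (0, Pi.single X 1) t ≠ 0).card : ℝ) := by
      exact_mod_cast hlow
    have hup' : ((S.filter fun t => L (0, Pi.single X 1) t ≠ 0).card : ℝ) ≤ ((d + 1 : ℕ) : ℝ) := by
      exact_mod_cast hup
    have := mul_le_mul_of_nonneg_left hlow' hα.le
    linarith

/-- Q1 is false, and it fails for every `α > 0`: for every `d` there is a binary linear code with
`d` pairwise disjoint hitting sets and no set `S` with `α wt(c) ≤ wt(c_S) < wt(c)` for all nonzero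
codewords `c`. -/
theorem result :
    (¬ ∀ α : ℝ, α < 1 → ∃ d : ℕ, 1 ≤ d ∧ ∀ n : ℕ, 1 ≤ n →
      ∀ C : Submodule (ZMod 2) (Fin n → ZMod 2),
        (∃ H : Fin d → Finset (Fin n), (∀ j k, j ≠ k → Disjoint (H j) (H k)) ∧
          ∀ j, ∀ c ∈ C, c ≠ 0 → ∃ i ∈ H j, c i ≠ 0) →
        ∃ S : Finset (Fin n), ∀ c ∈ C, c ≠ 0 →
          α * ((univ.filter fun i => c i ≠ 0).card : ℝ) ≤
            ((S.filter fun i => c i ≠ 0).card : ℝ) ∧
          (S.filter fun i => c i ≠ 0).card < (univ.filter fun i => c i ≠ 0).card) ∧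
    ∀ α : ℝ, 0 < α → ∀ d : ℕ,
      ∃ n : ℕ, 1 ≤ n ∧ ∃ C : Submodule (ZMod 2) (Fin n → ZMod 2),
        (∃ H : Fin d → Finset (Fin n), (∀ j k, j ≠ k → Disjoint (H j) (H k)) ∧
          ∀ j, ∀ c ∈ C, c ≠ 0 → ∃ i ∈ H j, c i ≠ 0) ∧
        ¬ ∃ S : Finset (Fin n), ∀ c ∈ C, c ≠ 0 →
          α * ((univ.filter fun i => c i ≠ 0).card : ℝ) ≤
            ((S.filter fun i => c i ≠ 0).card : ℝ) ∧
          (S.filter fun i => c i ≠ 0).card < (univ.filter fun i => c i ≠ 0).card := by
  refine ⟨fun h => ?_, strong⟩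
  obtain ⟨d, -, hd⟩ := h (1 / 2) (by norm_num)
  obtain ⟨n, hn, C, hC, hno⟩ := strong (1 / 2) (by norm_num) d
  exact hno (hd n hn C hC)

end Pool.Agent.Results.MP_d2d48a_co.NoThin
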